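import Pool.Agent.R390.SF.PolDef

/-!
# Polarized pure integral systems with a generic Frobenius polynomial
-/

set_option autoImplicit false
set_option linter.all false

namespace Pool.Agent.N144.GF

open Polynomial NumberField Pool.Agent.Y800 Pool.Agent.R390.SF
open Pool.Agent.Y126.SH (chi)

/-- The places of `F` above the prime number `p`. -/
def placesAbove (F : SubFld ℚ) (p : ℕ) : Set (Ideal (𝓞 F)) := {𝔭 | 𝔭.IsMaximal ∧ (p : 𝓞 F) ∈ 𝔭}

/-- The degree over `ℚ` of the Galois closure of `F`: the index of the intersection of the conjugates of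
the absolute Galois group of `F` in the one of `ℚ`. -/
noncomputable def closureDegree (F : SubFld ℚ) : ℕ := (F.fixingSubgroup).normalCore.index

variable {F : SubFld ℚ} {n : ℕ}

/-- The properties of the realisations of a pure motive over `F` of weight `w ≥ 0` (with Hodge numbers
`h^{r,w-r} = 0` for `r < 0`), with a lattice and a polarization, with good reduction outside the finite set
`S` of primes and semistable reduction in `S`. For `ℓ` outside the finite set `S'` (which contains `S` and
the small primes, for which the theory of Fontaine and Laffaille does not apply) the polarization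
of `T_ℓ` is perfect, and the weights of `T_ℓ / ℓ` at the places above `ℓ` are natural numbers, with sum at
most `w n` for each stable subspace. There is no condition on the Hodge numbers. -/
structure PolarizedPure (S S' : Finset ℕ) (w : ℕ) (T : IntegralSystem F n) : Prop
    extends T.GoodSystem S w where
  /-- semistable reduction in `S` -/
  semistable : ∀ p : ℕ, p.Prime → p ∈ S → ∀ 𝔭 : Ideal (𝓞 F), 𝔭.IsMaximal → (p : 𝓞 F) ∈ 𝔭 →
    T.SemistableAt p 𝔭
  /-- Hodge-Tate weights of `V_ℓ` at the places above `ℓ` -/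
  weights : ∀ (ℓ : ℕ) [Fact ℓ.Prime], ∃ c : ℕ,
    WeightsAt F (T.rat ℓ) (fun g => algebraMap ℤ_[ℓ] ℚ_[ℓ] (chi ℓ g : ℤ_[ℓ])) ℓ c
  /-- a polarization of `V_ℓ` -/
  polarization : ∀ (ℓ : ℕ) [Fact ℓ.Prime], ∃ J : Matrix (Fin n) (Fin n) ℤ_[ℓ],
    T.IsPolarization w ℓ J
  /-- a perfect polarization of `T_ℓ` for `ℓ` outside `S'` -/
  perfect : ∀ (ℓ : ℕ) [Fact ℓ.Prime], ℓ ∉ S' → ∃ J : Matrix (Fin n) (Fin n) ℤ_[ℓ],
    T.IsPolarization w ℓ J ∧ IsUnit J.det
  /-- Fontaine-Laffaille weights of `T_ℓ / ℓ` at the places above `ℓ` outside `S'` -/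
  residualWeights : ∀ (ℓ : ℕ) [Fact ℓ.Prime], ℓ ∉ S' →
    WeightsAt F (T.res ℓ) (fun g => PadicInt.toZMod (chi ℓ g : ℤ_[ℓ])) ℓ (w * n)

/-- The Frobenius polynomials of `T` at the places above the prime number `p`, which splits completely in
`F`, are generic: suppose that for each place `𝔭` above `p` a family `A 𝔭` of `d` roots of the polynomial is
given which together with the complex conjugates is a part of the family of all roots (with multiplicities).
If the product `Π` of all the elements of the families `A 𝔭`, of absolute value `p ^ a` with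
`2 a = w [F : ℚ] d`, is `p ^ a` times a root of unity of order dividing the degree `N` of the Galois closure of
`F` (`Π ^ N = p ^ (N a)`), then `d = 0`. -/
structure IsGenericAt (T : IntegralSystem F n) (w p : ℕ) : Prop where
  prime : p.Prime
  split : (placesAbove F p).ncard = Module.finrank ℚ F
  generic : ∀ (d a : ℕ) (A : Ideal (𝓞 F) → Multiset ℂ),
    (∀ 𝔭 ∈ placesAbove F p, Multiset.card (A 𝔭) = d ∧
      A 𝔭 + (A 𝔭).map (starRingEnd ℂ) ≤ (T.poly 𝔭).aroots ℂ) →
    2 * a = w * (Module.finrank ℚ F * d) →
    (∏ᶠ 𝔭 ∈ placesAbove F p, (A 𝔭).prod) ^ closureDegree F = (p : ℂ) ^ (closureDegree F * a) → d = 0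

/-- The class of the systems of the theorem: polarized pure systems which for each `ℓ` in `Λ` have generic
Frobenius polynomials above a prime number `p ≠ ℓ` outside of `S`. -/
def InClass (S S' : Finset ℕ) (w : ℕ) (Λ : Set ℕ) (T : IntegralSystem F n) : Prop :=
  PolarizedPure S S' w T ∧ ∀ ℓ ∈ Λ, ℓ.Prime → ∃ p : ℕ, p ∉ S ∧ p ≠ ℓ ∧ IsGenericAt T w p

end Pool.Agent.N144.GF
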