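import Pool.Agent.N144.GF.Main

/-!
# Separable Frobenius polynomials of small degree over `ℚ` are generic
-/

set_option autoImplicit false
set_option linter.all false

namespace Pool.Agent.N144.GF

open Module Matrix Polynomial NumberField Pool.Agent.Y800 Pool.Agent.R390.SF
open Pool.Agent.R390.SF.IntegralSystem

attribute [local instance] Subgroup.fintypeQuotientOfFiniteIndex

variable {F : SubFld ℚ} [hF : FiniteDimensional ℚ F] {n : ℕ} {S : Finset ℕ} {w : ℕ}
  {T : IntegralSystem F n}

theorem fix_top (h1 : finrank ℚ F = 1) : F.fixingSubgroup = ⊤ := by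
  rw [← Subgroup.index_eq_one, ← IntermediateField.finrank_eq_fixingSubgroup_index, h1]

theorem closure_one (h1 : finrank ℚ F = 1) : closureDegree F = 1 := by
  unfold closureDegree
  rw [fix_top h1, Subgroup.index_eq_one]
  exact Subgroup.normalCore_eq_self ⊤

theorem places_one (h1 : finrank ℚ F = 1) {p : ℕ} (hp : p.Prime) {P : Ideal ZBar}
    (hP : P.IsMaximal) (hpP : (p : ZBar) ∈ P) : placesAbove F p = {P.under (𝓞 F)} := by
  have hr : placesAbove F p = Set.range (plc F P) := (range_plc hp hP hpP).symm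
  have hone : plc F P ((1 : GQ) : GQ ⧸ F.fixingSubgroup) = P.under (𝓞 F) := by
    rw [plc_mk, cj_one]
  rw [hr]
  ext 𝔭
  rw [Set.mem_singleton_iff, Set.mem_range]
  constructor
  · rintro ⟨q, rfl⟩
    have : q = ((1 : GQ) : GQ ⧸ F.fixingSubgroup) := by
      induction q using QuotientGroup.induction_on with
      | H x =>
        rw [QuotientGroup.eq, fix_top h1]
        exact Subgroup.mem_top _
    rw [this, hone]
  · rintro rfl
    exact ⟨_, hone⟩

theorem generic_of_nodup (h1 : finrank ℚ F = 1) (hT : T.GoodSystem S w)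
    (hn : n ≤ 5 ∨ (n ≤ 6 ∧ Odd w)) {p : ℕ} (hp : p.Prime) (hpS : p ∉ S)
    (hnd : ∀ 𝔭 ∈ placesAbove F p, ((T.poly 𝔭).aroots ℂ).Nodup) : IsGenericAt T w p := by
  obtain ⟨P, σ, hP, hpP, hσ⟩ := exists_geom hp
  have hpl := places_one h1 hp hP hpP
  refine ⟨hp, by rw [hpl, Set.ncard_singleton, h1], ?_⟩
  intro d a A hA ha hprod
  rw [closure_one h1, pow_one, one_mul, hpl, finprod_mem_singleton] at hprod
  have hmem : P.under (𝓞 F) ∈ placesAbove F p := by rw [hpl]; rfl
  obtain ⟨hd, hle⟩ := hA _ hmem
  set B := A (P.under (𝓞 F)) with hB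
  have hN := hnd _ hmem
  have hBN : (B + B.map (starRingEnd ℂ)).Nodup := Multiset.nodup_of_le hle hN
  have hpure : ∀ z ∈ B, z * (starRingEnd ℂ) z = (p : ℂ) ^ w := by
    intro z hz
    have h2 : z ∈ (T.poly (P.under (𝓞 F))).aroots ℂ :=
      Multiset.mem_of_le ((Multiset.le_add_right _ _).trans hle) hz
    have hσF : σ ∈ F.fixingSubgroup := by rw [fix_top h1]; exact Subgroup.mem_top _
    have h3 := pure_frob hT hp hpS hP hpP (σ := ⟨σ, hσF⟩) hσ z h2
    rw [Complex.mul_conj, Complex.normSq_eq_norm_sq, h3]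
    push_cast
    rfl
  have hdisj : ∀ z ∈ B, (starRingEnd ℂ) z ∉ B := by
    intro z hz hz'
    have h2 := (Multiset.nodup_add.1 hBN).2.2
    exact Multiset.disjoint_left.1 h2 hz' (Multiset.mem_map_of_mem _ hz)
  have hcard : 2 * d ≤ n := by
    have h2 := Multiset.card_le_card hle
    rw [Multiset.card_add, Multiset.card_map, hd] at h2
    have h3 : Multiset.card ((T.poly (P.under (𝓞 F))).aroots ℂ) ≤ n := by
      have hpm : (p : 𝓞 F) ∈ P.under (𝓞 F) := by
        rw [mem_under, map_natCast]
        exact hpP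
      have h4 := (hT.good p hp hpS _ (under_max hP) hpm).natDegree
      refine (card_roots' _).trans ?_
      refine natDegree_map_le.trans ?_
      rw [h4]
    omega
  rw [h1, one_mul] at ha
  -- the cases
  have hd2 : d ≤ 2 ∨ d = 3 := by omega
  rcases hd2 with hd2 | hd3
  · interval_cases d
    · rfl
    · exfalso
      obtain ⟨z, hz⟩ := Multiset.card_eq_one.1 hd
      have hzB : z ∈ B := by rw [hz]; exact Multiset.mem_singleton_self z
      rw [hz, Multiset.prod_singleton] at hprod
      apply hdisj z hzB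
      rw [hprod, map_pow, Complex.conj_natCast, ← hprod]
      exact hzB
    · exfalso
      obtain ⟨x, y, hxy⟩ := Multiset.card_eq_two.1 hd
      have hxB : x ∈ B := by rw [hxy]; simp
      have hyB : y ∈ B := by rw [hxy]; simp
      rw [hxy] at hprod
      have haw : a = w := by omega
      have h5 : x * y = (p : ℂ) ^ w := by
        rw [← haw, ← hprod]
        simp
      have h6 := hpure x hxB
      have hx0 : x ≠ 0 := by
        intro h0
        rw [h0, zero_mul] at h5
        exact pow_ne_zero w (Nat.cast_ne_zero.2 hp.ne_zero) h5.symm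
      have h7 : y = (starRingEnd ℂ) x := mul_left_cancel₀ hx0 (h5.trans h6.symm)
      apply hdisj x hxB
      rw [← h7]
      exact hyB
  · exfalso
    rcases hn with hn | ⟨hn, hw⟩
    · omega
    · obtain ⟨c, hc⟩ := hw
      rw [hd3, hc] at ha
      omega

end Pool.Agent.N144.GF
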