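import Pool.Agent.N144.GF.Split
import Pool.Agent.N144.GF.Defs

/-!
# Finiteness of the polarized integral systems with a generic Frobenius polynomial
-/

set_option autoImplicit false
set_option linter.all false

namespace Pool.Agent.N144.GF

open Module Matrix Polynomial NumberField Pool.Agent.Y800 Pool.Agent.R390.SF
open Pool.Agent.R390.SF.IntegralSystem
open Pool.Agent.Y126.SH (chi exists_reps)

attribute [local instance] Subgroup.fintypeQuotientOfFiniteIndex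

theorem charpoly_of_inter {n : ℕ} {k : Type} [Field k] {A B X : Matrix (Fin n) (Fin n) k}
    (hX : X.det ≠ 0) (h : A * X = X * B) : B.charpoly = A.charpoly := by
  have h5 : B = X⁻¹ * A * X := by
    rw [mul_assoc, h, ← mul_assoc, Matrix.nonsing_inv_mul _ (isUnit_iff_ne_zero.2 hX), one_mul]
  rw [h5, mul_assoc, Matrix.charpoly_mul_comm, mul_assoc,
    Matrix.mul_nonsing_inv _ (isUnit_iff_ne_zero.2 hX), mul_one]

section single

variable {F : SubFld ℚ} {n : ℕ} {S S' : Finset ℕ} {w : ℕ} {T : IntegralSystem F n}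

theorem pure_of (hT : PolarizedPure S S' w T) : T.PureSystem S w where
  toGoodSystem := hT.toGoodSystem
  semistable := hT.semistable
  weights := hT.weights
  residualWeights := by
    refine ⟨S'.sup id, fun ℓ _ hlt => ?_⟩
    have h1 : ℓ ∉ S' := fun h => absurd (Finset.le_sup (f := id) h) (not_le.2 hlt)
    exact hT.residualWeights ℓ h1

variable [hF : FiniteDimensional ℚ F]

theorem genAt_of (hT : T.GoodSystem S w) {p : ℕ} (hpS : p ∉ S) (h : IsGenericAt T w p)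
    {P : Ideal ZBar} (hP : P.IsMaximal) (hpP : (p : ZBar) ∈ P) {σ : GQ} (hσ : IsGeomFrob p P σ) :
    GenAt T w p P := by
  classical
  have hp := h.prime
  have hinj : Function.Injective (plc F P) := plc_inj hp hP hpP h.split
  have hσc := core_of_inj hp hP hinj hσ
  have hrange : placesAbove F p = Set.range (plc F P) := (range_plc hp hP hpP).symm
  intro d a A hd hA ha hprod
  let A' : Ideal (𝓞 F) → Multiset ℂ := fun 𝔭 =>
    if h : ∃ q, plc F P q = 𝔭 then A h.choose else 0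
  have hA' : ∀ q, A' (plc F P q) = A q := by
    intro q
    have h1 : ∃ q', plc F P q' = plc F P q := ⟨q, rfl⟩
    show (if h : ∃ q', plc F P q' = plc F P q then A h.choose else 0) = A q
    rw [dif_pos h1, hinj h1.choose_spec]
  have hconj : ∀ q, (A q).map (starRingEnd ℂ) = (A q).map (fun z => ((p ^ w : ℕ) : ℂ) / z) := by
    intro q
    refine Multiset.map_congr rfl fun z hz => ?_
    have h1 : z ∈ (T.poly (plc F P q)).aroots ℂ :=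
      Multiset.mem_of_le ((Multiset.le_add_right _ _).trans (hA q)) hz
    have h2 := pure_frob hT hp hpS (cj_max hP) (cj_nat.2 hpP)
      (σ := ⟨q.out⁻¹ * σ * q.out, core_conj hσc q.out⟩) (cj_frob hσ) z h1
    have h3 : z * (starRingEnd ℂ) z = ((p ^ w : ℕ) : ℂ) := by
      rw [Complex.mul_conj, Complex.normSq_eq_norm_sq, h2]
      push_cast
      rfl
    have h4 : z ≠ 0 := by
      intro h0
      rw [h0, zero_mul] at h3
      exact (Nat.cast_ne_zero.2 (pow_ne_zero w hp.ne_zero)) h3.symm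
    rw [eq_div_iff h4, mul_comm, h3]
  refine h.generic d a A' ?_ (by rw [mul_comm, ha]) ?_
  · intro 𝔭 h𝔭
    rw [hrange] at h𝔭
    obtain ⟨q, rfl⟩ := h𝔭
    rw [hA']
    refine ⟨hd q, ?_⟩
    rw [hconj]
    exact hA q
  · have h1 : ∏ᶠ 𝔭 ∈ placesAbove F p, (A' 𝔭).prod = ∏ q, (A q).prod := by
      rw [hrange, finprod_mem_range hinj, finprod_eq_prod_of_fintype]
      exact Finset.prod_congr rfl fun q _ => by rw [hA' q]
    rw [h1]
    exact hprod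

theorem noiso_rat' (hT : PolarizedPure S S' w T) {ℓ : ℕ} [hℓ : Fact ℓ.Prime] {p : ℕ} (hpS : p ∉ S)
    (hpℓ : p ≠ ℓ) (h : IsGenericAt T w p) : ∃ J : Matrix (Fin n) (Fin n) ℚ_[ℓ],
      Equi (T.rat ℓ) J ∧ NoIso (T.rat ℓ) J := by
  obtain ⟨J, hJ⟩ := hT.polarization ℓ
  obtain ⟨P, σ, hP, hpP, hσ⟩ := exists_geom h.prime
  have hinj : Function.Injective (plc F P) := plc_inj h.prime hP hpP h.split
  have hσc := core_of_inj h.prime hP hinj hσ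
  obtain ⟨M, hM0, hM⟩ := exists_relAt hT.toGoodSystem h.prime hpS hP hpP
  refine ⟨J.map (algebraMap ℤ_[ℓ] ℚ_[ℓ]), equi_rat hJ, noiso_frob (algebraMap ℤ_[ℓ] ℚ_[ℓ]) hJ ?_
    (fun U hU => rat_wt (pure_of hT) U hU) hT.toGoodSystem h.prime hpS (Ne.symm hpℓ) hP hpP hσ hσc
    (M := M) (by exact_mod_cast hM0) hM (genAt_of hT.toGoodSystem hpS h hP hpP hσ)⟩
  have h1 : (J.map (algebraMap ℤ_[ℓ] ℚ_[ℓ])).det = algebraMap ℤ_[ℓ] ℚ_[ℓ] J.det := qm_det J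
  rw [h1]
  intro h2
  exact hJ.nondegenerate (Subtype.ext h2)

theorem semis_rat' (hT : PolarizedPure S S' w T) {ℓ : ℕ} [hℓ : Fact ℓ.Prime] {p : ℕ} (hpS : p ∉ S)
    (hpℓ : p ≠ ℓ) (h : IsGenericAt T w p) : Semis (T.rat ℓ) := by
  obtain ⟨J, h1, h2⟩ := noiso_rat' hT hpS hpℓ h
  exact fun U hU => ⟨orth J U, orth_stable h1 hU, isCompl_orth h1 h2 hU⟩

theorem noiso_res' (hT : PolarizedPure S S' w T) {ℓ : ℕ} [hℓ : Fact ℓ.Prime] (hℓS : ℓ ∉ S')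
    -- the prime for the weights
    {p₁ : ℕ} (hp₁ : p₁.Prime) (hp₁S : p₁ ∉ S) (hp₁ℓ : ℓ ≠ p₁) {P₁ : Ideal ZBar} (hP₁ : P₁.IsMaximal)
    (hpP₁ : (p₁ : ZBar) ∈ P₁) {σ₁ : GQ} (hσ₁ : IsGeomFrob p₁ P₁ σ₁)
    (hσ₁c : σ₁ ∈ (F.fixingSubgroup).normalCore) {M₁ : ℤ} (hM₁k : (M₁ : ZMod ℓ) ≠ 0)
    (hM₁ : ∀ (Ω : Type) [Field Ω] [IsAlgClosed Ω], (M₁ : Ω) ≠ 0 →
      ∀ (A : (GQ ⧸ F.fixingSubgroup) → Multiset Ω) (a : ℕ),
        a ≤ expo F.fixingSubgroup * (finrank ℚ F * (w * n)) →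
        (∀ q, A q ≤ ((T.poly ((cj q.out P₁).under (𝓞 F))).map (Int.castRingHom Ω)).roots) →
        ∏ q, (A q).prod ^ expo F.fixingSubgroup = (p₁ : Ω) ^ a →
          a * 2 = ∑ q, expo F.fixingSubgroup * (w * Multiset.card (A q)))
    -- the generic prime
    {p : ℕ} (hp : p.Prime) (hpS : p ∉ S) (hpℓ : ℓ ≠ p) {P : Ideal ZBar} (hP : P.IsMaximal)
    (hpP : (p : ZBar) ∈ P) {σ : GQ} (hσ : IsGeomFrob p P σ)
    (hσc : σ ∈ (F.fixingSubgroup).normalCore) {M : ℤ} (hMk : (M : ZMod ℓ) ≠ 0)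
    (hM : RelAt T w p P M) (hgen : GenAt T w p P) :
    ∃ J : Matrix (Fin n) (Fin n) ℤ_[ℓ], T.IsPolarization w ℓ J ∧ IsUnit J.det ∧
      NoIso (toF (T.rho ℓ)) (rd J) := by
  obtain ⟨J, hJ, hJu⟩ := hT.perfect ℓ hℓS
  refine ⟨J, hJ, hJu, noiso_frob (PadicInt.toZMod (p := ℓ)) hJ ?_ (fun U hU =>
    weight_sub (PadicInt.toZMod (p := ℓ)) continuous_toZMod mink_zmod (pure_of hT)
      (hT.residualWeights ℓ hℓS) hp₁ hp₁S hp₁ℓ hP₁ hpP₁ hσ₁ hσ₁c (M := M₁) hM₁k hM₁ U hU)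
    hT.toGoodSystem hp hpS hpℓ hP hpP hσ hσc (M := M) hMk hM hgen⟩
  have h1 : (J.map (PadicInt.toZMod (p := ℓ))).det = PadicInt.toZMod J.det := rd_det J
  rw [h1]
  exact (hJu.map (PadicInt.toZMod (p := ℓ))).ne_zero

/-- isomorphic systems have the same Frobenius polynomials -/
theorem poly_of_inter {T0 : IntegralSystem F n} (hT0 : T0.GoodSystem S w) (hT : T.GoodSystem S w)
    {ℓ : ℕ} [hℓ : Fact ℓ.Prime] {B : Matrix (Fin n) (Fin n) ℤ_[ℓ]} (hB : Inter T0 T ℓ B)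
    {p : ℕ} (hp : p.Prime) (hpS : p ∉ S) (hpℓ : ℓ ≠ p) {P : Ideal ZBar} (hP : P.IsMaximal)
    (hpP : (p : ZBar) ∈ P) {σ : GQ} (hσ : IsGeomFrob p P σ)
    (hσc : σ ∈ (F.fixingSubgroup).normalCore) (q : GQ ⧸ F.fixingSubgroup) :
    T.poly (plc F P q) = T0.poly (plc F P q) := by
  let y : F.fixingSubgroup := ⟨q.out⁻¹ * σ * q.out, core_conj hσc q.out⟩
  have hy : IsGeomFrob p (cj q.out P) y := cj_frob hσ
  have h1 := charpoly_frob_rat hT hp hpS hpℓ (cj_max hP) (cj_nat.2 hpP) hy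
  have h2 := charpoly_frob_rat hT0 hp hpS hpℓ (cj_max hP) (cj_nat.2 hpP) hy
  have h3 : (T0.rat ℓ y : Matrix (Fin n) (Fin n) ℚ_[ℓ]) * qm B = qm B * T.rat ℓ y := by
    have h4 := congrArg qm (hB.2 y)
    rw [map_mul, map_mul] at h4
    exact h4
  have hdet : (qm B).det ≠ 0 := by
    rw [qm_det]
    intro h0
    exact hB.1 (Subtype.ext h0)
  have h4 := charpoly_of_inter hdet h3
  rw [h1, h2] at h4
  exact Polynomial.map_injective _ (Int.cast_injective (α := ℚ_[ℓ])) h4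

end single

section main

variable {F : SubFld ℚ} [hF : FiniteDimensional ℚ F] {n : ℕ}

/-- **Finiteness of the polarized systems with a generic Frobenius polynomial.** -/
theorem gen_finiteness (hn : 0 < n) (w : ℕ) (S S' : Finset ℕ) (Λ : Set ℕ) :
    ∃ (m : ℕ) (T : Fin m → IntegralSystem F n), (∀ i, InClass S S' w Λ (T i)) ∧
      ∀ T' : IntegralSystem F n, InClass S S' w Λ T' → ∃ i, IsomorphicOn Λ (T i) T' := by
  classical
  obtain ⟨𝒯, h𝒯, hdet⟩ := traces_of_finite (F := F) hn S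
  obtain ⟨p₁, hp₁, hp₁S, P₁, hP₁, hpP₁, σ₁, hσ₁, hσ₁c⟩ := exists_core (F := F) S
  let 𝒰 : Finset (Ideal (𝓞 F)) := 𝒯 ∪ (Finset.univ.image fun q : GQ ⧸ F.fixingSubgroup =>
    (cj q.out P₁).under (𝓞 F))
  have h𝒰 : ∀ 𝔭 ∈ 𝒰, 𝔭.IsMaximal ∧ ∃ p : ℕ, p.Prime ∧ p ∉ S ∧ (p : 𝓞 F) ∈ 𝔭 := by
    intro 𝔭 h𝔭
    rcases Finset.mem_union.1 h𝔭 with h1 | h1
    · exact h𝒯 𝔭 h1
    · obtain ⟨q, _, rfl⟩ := Finset.mem_image.1 h1
      refine ⟨under_max (cj_max hP₁), p₁, hp₁, hp₁S, ?_⟩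
      rw [mem_under, map_natCast]
      exact cj_nat.2 hpP₁
  have hmem : ∀ q : GQ ⧸ F.fixingSubgroup, (cj q.out P₁).under (𝓞 F) ∈ 𝒰 := fun q =>
    Finset.mem_union_right _ (Finset.mem_image_of_mem _ (Finset.mem_univ q))
  have hpoly : ∀ T T' : IntegralSystem F n, T.GoodSystem S w → T'.GoodSystem S w →
      ((fun x : 𝒰 × Fin (n + 1) => (T.poly x.1).coeff x.2) =
        fun x : 𝒰 × Fin (n + 1) => (T'.poly x.1).coeff x.2) →
      ∀ 𝔭 ∈ 𝒰, T.poly 𝔭 = T'.poly 𝔭 := by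
    intro T T' hT hT' heq 𝔭 h𝔭
    obtain ⟨h1, p, hp, hpS, hp𝔭⟩ := h𝒰 𝔭 h𝔭
    ext i
    by_cases hi : i < n + 1
    · exact congrFun heq (⟨𝔭, h𝔭⟩, ⟨i, hi⟩)
    · rw [Polynomial.coeff_eq_zero_of_natDegree_lt, Polynomial.coeff_eq_zero_of_natDegree_lt]
      · rw [(hT'.good p hp hpS 𝔭 h1 hp𝔭).natDegree]
        omega
      · rw [(hT.good p hp hpS 𝔭 h1 hp𝔭).natDegree]
        omega
  refine exists_reps (fun T : IntegralSystem F n => InClass S S' w Λ T)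
    (fun T T' => IsomorphicOn Λ T T')
    (fun T => fun x : 𝒰 × Fin (n + 1) => (T.poly x.1).coeff x.2) ?_ ?_
  · refine (Set.Finite.pi' (t := fun x : 𝒰 × Fin (n + 1) => Set.Icc
      (-((Nat.card (𝓞 F ⧸ (x.1 : Ideal (𝓞 F))) ^ w) ^ n * n.choose (n / 2) : ℕ) : ℤ)
      (((Nat.card (𝓞 F ⧸ (x.1 : Ideal (𝓞 F))) ^ w) ^ n * n.choose (n / 2) : ℕ) : ℤ))
      (fun p => Set.finite_Icc _ _)).subset ?_
    rintro _ ⟨T, hT, rfl⟩ x
    obtain ⟨h1, r, hr, hrS, h2⟩ := h𝒰 x.1 x.1.2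
    exact abs_le.1 (coeff_bound hT.1.toGoodSystem hr hrS h1 h2 x.2)
  · intro T0 hT0
    by_cases hΛ : ∃ ℓ₀ ∈ Λ, ℓ₀.Prime
    swap
    · exact ⟨1, fun _ => 0, fun _ => Nat.one_pos, fun T T' _ _ _ _ _ ℓ hℓ hℓΛ =>
        (hΛ ⟨ℓ, hℓΛ, hℓ.out⟩).elim⟩
    obtain ⟨ℓ₀, hℓ₀Λ, hℓ₀⟩ := hΛ
    have hfact : Fact ℓ₀.Prime := ⟨hℓ₀⟩
    obtain ⟨p, hpS, hpℓ₀, hgen⟩ := hT0.2 ℓ₀ hℓ₀Λ hℓ₀
    have hp := hgen.prime
    obtain ⟨P, σ, hP, hpP, hσ⟩ := exists_geom hp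
    have hinj : Function.Injective (plc F P) := plc_inj hp hP hpP hgen.split
    have hσc := core_of_inj hp hP hinj hσ
    obtain ⟨M, hM0, hM⟩ := exists_relAt hT0.1.toGoodSystem hp hpS hP hpP
    have hgen0 : GenAt T0 w p P := genAt_of hT0.1.toGoodSystem hpS hgen hP hpP hσ
    obtain ⟨M₁, hM₁0, hM₁⟩ := exists_M hT0.1.toGoodSystem hp₁ hp₁S hP₁ hpP₁ hσ₁ hσ₁c (w * n)
    let N : ℕ := max (S'.sup id) (max (max p₁ M₁.natAbs) (max p M.natAbs))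
    have hss : ∀ T : IntegralSystem F n, InClass S S' w Λ T → ∀ (ℓ : ℕ) [Fact ℓ.Prime], ℓ ∈ Λ →
        Semis (T.rat ℓ) := by
      intro T hT ℓ hℓ hℓΛ
      obtain ⟨p', h1, h2, h3⟩ := hT.2 ℓ hℓΛ hℓ.out
      exact semis_rat' hT.1 h1 h2 h3
    choose k c hk hc using local_code2 (Λ := Λ) (T0 := T0) (fun ℓ hℓ hℓΛ => hss T0 hT0 ℓ hℓΛ)
    obtain ⟨K, ⟨e⟩⟩ := Finite.exists_equiv_fin (∀ ℓ : Fin (N + 1), Fin (k ℓ))
    refine ⟨K, fun T => (e fun ℓ => ⟨c ℓ T, hk ℓ T⟩ : ℕ), fun T => Fin.is_lt _, ?_⟩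
    intro T T' hT hT' hi hi' hcode ℓ hℓ hℓΛ
    have key : ∀ T : IntegralSystem F n, InClass S S' w Λ T →
        ((fun x : 𝒰 × Fin (n + 1) => (T.poly x.1).coeff x.2) =
          fun x : 𝒰 × Fin (n + 1) => (T0.poly x.1).coeff x.2) →
        ∀ (ℓ : ℕ) [Fact ℓ.Prime], ℓ ∈ Λ → ∃ B : Matrix (Fin n) (Fin n) ℤ_[ℓ], Inter T0 T ℓ B := by
      intro T hT hi ℓ hℓ hℓΛ
      refine exists_inter (hss T0 hT0 ℓ hℓΛ) (hss T hT ℓ hℓΛ) ?_
      refine hdet w w T T0 hT.1.toGoodSystem hT0.1.toGoodSystem (fun p hp => ?_) ℓ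
      rw [hpoly T T0 hT.1.toGoodSystem hT0.1.toGoodSystem hi p (Finset.mem_union_left _ hp)]
    have key2 : N < ℓ → ∀ T : IntegralSystem F n, InClass S S' w Λ T →
        ((fun x : 𝒰 × Fin (n + 1) => (T.poly x.1).coeff x.2) =
          fun x : 𝒰 × Fin (n + 1) => (T0.poly x.1).coeff x.2) →
        ∃ J : Matrix (Fin n) (Fin n) ℤ_[ℓ], T.IsPolarization w ℓ J ∧ IsUnit J.det ∧
          NoIso (toF (T.rho ℓ)) (rd J) := by
      intro hN T hT hi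
      simp only [N, max_lt_iff] at hN
      obtain ⟨h1, ⟨h2, h3⟩, h4, h5⟩ := hN
      obtain ⟨B, hB⟩ := key T hT hi ℓ₀ hℓ₀Λ
      have hpq : ∀ q, T.poly (plc F P q) = T0.poly (plc F P q) := fun q =>
        poly_of_inter hT0.1.toGoodSystem hT.1.toGoodSystem hB hp hpS (Ne.symm hpℓ₀) hP hpP hσ hσc q
      refine noiso_res' hT.1 (fun h4 => absurd (Finset.le_sup (f := id) h4) (not_le.2 h1)) hp₁ hp₁S
        (by omega) hP₁ hpP₁ hσ₁ hσ₁c (M₁ := M₁) (ne_zero_mod hM₁0 h3) ?_ hp hpS (by omega) hP hpP hσ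
        hσc (M := M) (ne_zero_mod hM0 h5) ?_ ?_
      · intro Ω _ _ hMΩ A a ha hA hprod
        refine hM₁ Ω hMΩ A a ha (fun q => ?_) hprod
        rw [← hpoly T T0 hT.1.toGoodSystem hT0.1.toGoodSystem hi _ (hmem q)]
        exact hA q
      · intro Ω _ _ hMΩ A a ha hA hprod
        obtain ⟨A', hA1, hA2, hA3⟩ := hM Ω hMΩ A a ha (fun q => by rw [← hpq q]; exact hA q) hprod
        exact ⟨A', hA1, fun q => by rw [hpq q]; exact hA2 q, hA3⟩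
      · intro d a A hd hA ha hprod
        exact hgen0 d a A hd (fun q => by rw [← hpq q]; exact hA q) ha hprod
    have h1 := key T hT hi ℓ hℓΛ
    have h2 := key T' hT' hi' ℓ hℓΛ
    by_cases hℓN : ℓ ≤ N
    · have h3 := e.injective (Fin.ext hcode)
      have h4 := congrFun h3 ⟨ℓ, Nat.lt_succ_of_le hℓN⟩
      exact hc ℓ T T' hℓΛ h1 h2 (congrArg Fin.val h4)
    · obtain ⟨B, hB, hBρ⟩ := h1
      obtain ⟨B', hB', hBρ'⟩ := h2
      obtain ⟨J0, hJ0, -, hn0⟩ := key2 (not_le.1 hℓN) T0 hT0 rfl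
      obtain ⟨J, hJ, hJu, hn⟩ := key2 (not_le.1 hℓN) T hT hi
      obtain ⟨J', hJ', hJu', hn'⟩ := key2 (not_le.1 hℓN) T' hT' hi'
      obtain ⟨A, hA⟩ := uniq hJu hJ.equivariant hJ0.equivariant hn hn0 hB hBρ
      obtain ⟨A', hA'⟩ := uniq hJu' hJ'.equivariant hJ0.equivariant hn' hn0 hB' hBρ'
      refine ⟨A' * A⁻¹, fun g => ?_⟩
      rw [hA, hA']
      group

end main

end Pool.Agent.N144.GF
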