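import Pool.Agent.R390.SF.PolMain
import Pool.Agent.N144.GF.Rel

/-!
# Completely split primes; Frobenius elements and isotropic stable subspaces
-/

set_option autoImplicit false
set_option linter.all false

namespace Pool.Agent.N144.GF

open Module Polynomial NumberField Pool.Agent.Y800 Pool.Agent.R390.SF
open Pool.Agent.Y126.SH (chi)

attribute [local instance] Subgroup.fintypeQuotientOfFiniteIndex

section split

variable {F : SubFld ℚ} [hF : FiniteDimensional ℚ F]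

/-- the place of `F` below the conjugate of `P` -/
noncomputable def plc (F : SubFld ℚ) (P : Ideal ZBar) (q : GQ ⧸ F.fixingSubgroup) : Ideal (𝓞 F) :=
  (cj q.out P).under (𝓞 F)

theorem plc_mk {P : Ideal ZBar} (x : GQ) :
    plc F P ((x : GQ) : GQ ⧸ F.fixingSubgroup) = (cj x P).under (𝓞 F) := under_out

theorem exists_over {𝔭 : Ideal (𝓞 F)} (h : 𝔭.IsMaximal) :
    ∃ Q : Ideal ZBar, Q.IsMaximal ∧ Q.under (𝓞 F) = 𝔭 := by
  have hint : Algebra.IsIntegral (𝓞 F) ZBar := by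
    refine ⟨fun x => ?_⟩
    have h1 : IsIntegral ℤ x := RingOfIntegers.isIntegral x
    exact h1.tower_top
  obtain ⟨Q, hQ, hQm⟩ := Ideal.exists_ideal_over_maximal_of_isIntegral (S := ZBar) 𝔭 (by
    rw [(RingHom.injective_iff_ker_eq_bot _).1
      (FaithfulSMul.algebraMap_injective (𝓞 F) ZBar)]
    exact bot_le)
  exact ⟨Q, hQ, hQm⟩

theorem range_plc {p : ℕ} (hp : p.Prime) {P : Ideal ZBar} (hP : P.IsMaximal)
    (hpP : (p : ZBar) ∈ P) :
    Set.range (plc F P) = {𝔭 : Ideal (𝓞 F) | 𝔭.IsMaximal ∧ (p : 𝓞 F) ∈ 𝔭} := by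
  ext 𝔭
  constructor
  · rintro ⟨q, rfl⟩
    refine ⟨under_max (cj_max hP), ?_⟩
    show (p : 𝓞 F) ∈ (cj q.out P).under (𝓞 F)
    rw [mem_under, map_natCast]
    exact cj_nat.2 hpP
  · rintro ⟨h1, h2⟩
    obtain ⟨Q, hQ, hQ𝔭⟩ := exists_over h1
    have hpQ : (p : ZBar) ∈ Q := by
      rw [← hQ𝔭, mem_under, map_natCast] at h2
      exact h2
    obtain ⟨x, rfl⟩ := exists_cj hp hP hpP hQ hpQ
    exact ⟨(x : GQ ⧸ F.fixingSubgroup), by rw [plc_mk, hQ𝔭]⟩

theorem plc_inj {p : ℕ} (hp : p.Prime) {P : Ideal ZBar} (hP : P.IsMaximal)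
    (hpP : (p : ZBar) ∈ P)
    (hs : Set.ncard {𝔭 : Ideal (𝓞 F) | 𝔭.IsMaximal ∧ (p : 𝓞 F) ∈ 𝔭} = finrank ℚ F) :
    Function.Injective (plc F P) := by
  rw [← range_plc hp hP hpP, ← Set.image_univ] at hs
  have h1 : (plc F P '' Set.univ).ncard = (Set.univ : Set (GQ ⧸ F.fixingSubgroup)).ncard := by
    rw [hs, Set.ncard_univ, Nat.card_eq_fintype_card, card_quot]
  exact Set.injOn_univ.1 (Set.injOn_of_ncard_image_eq h1 Set.finite_univ)

theorem core_of_inj {p : ℕ} (hp : p.Prime) {P : Ideal ZBar} (hP : P.IsMaximal)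
    (hinj : Function.Injective (plc F P)) {σ : GQ} (hσ : IsGeomFrob p P σ) :
    σ ∈ (F.fixingSubgroup).normalCore := by
  intro b
  have h1 : cj σ P = P := by
    ext y
    rw [mem_cj]
    exact geom_mem hP hσ hp.ne_zero
  have h2 : plc F P (((σ * b⁻¹ : GQ)) : GQ ⧸ F.fixingSubgroup) =
      plc F P (((b⁻¹ : GQ)) : GQ ⧸ F.fixingSubgroup) := by
    rw [plc_mk, plc_mk, ← cj_cj, h1]
  have h3 := hinj h2
  rw [QuotientGroup.eq] at h3
  have h4 := (F.fixingSubgroup).inv_mem h3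
  have h5 : ((σ * b⁻¹)⁻¹ * b⁻¹)⁻¹ = b * σ * b⁻¹ := by group
  rwa [h5] at h4

end split

section noiso

variable {F : SubFld ℚ} [hF : FiniteDimensional ℚ F] {n : ℕ} {S : Finset ℕ} {w : ℕ}

/-- the relations in characteristic not dividing `M` come from complex relations -/
def RelAt (T : IntegralSystem F n) (w p : ℕ) (P : Ideal ZBar) (M : ℤ) : Prop :=
  ∀ (Ω : Type) [Field Ω] [IsAlgClosed Ω], (M : Ω) ≠ 0 →
    ∀ (A : (GQ ⧸ F.fixingSubgroup) → Multiset Ω) (a : ℕ),
      a ≤ expo F.fixingSubgroup * (w * (finrank ℚ F * n)) →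
      (∀ q, A q + (A q).map (fun z => ((p ^ w : ℕ) : Ω) / z) ≤
        ((T.poly (plc F P q)).map (Int.castRingHom Ω)).roots) →
      (∏ q, (A q).prod) ^ expo F.fixingSubgroup = (p : Ω) ^ a →
      ∃ A' : (GQ ⧸ F.fixingSubgroup) → Multiset ℂ,
        (∀ q, Multiset.card (A' q) = Multiset.card (A q)) ∧
        (∀ q, A' q + (A' q).map (fun z => ((p ^ w : ℕ) : ℂ) / z) ≤
          (T.poly (plc F P q)).aroots ℂ) ∧
        (∏ q, (A' q).prod) ^ expo F.fixingSubgroup = (p : ℂ) ^ a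

/-- there are no complex isotropic relations -/
def GenAt (T : IntegralSystem F n) (w p : ℕ) (P : Ideal ZBar) : Prop :=
  ∀ (d a : ℕ) (A : (GQ ⧸ F.fixingSubgroup) → Multiset ℂ), (∀ q, Multiset.card (A q) = d) →
    (∀ q, A q + (A q).map (fun z => ((p ^ w : ℕ) : ℂ) / z) ≤ (T.poly (plc F P q)).aroots ℂ) →
    a * 2 = w * (finrank ℚ F * d) →
    (∏ q, (A q).prod) ^ expo F.fixingSubgroup = (p : ℂ) ^ (expo F.fixingSubgroup * a) → d = 0

theorem exists_relAt {T : IntegralSystem F n} (hT : T.GoodSystem S w) {p : ℕ} (hp : p.Prime)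
    (hpS : p ∉ S) {P : Ideal ZBar} (hP : P.IsMaximal) (hpP : (p : ZBar) ∈ P) :
    ∃ M : ℤ, M ≠ 0 ∧ RelAt T w p P M := by
  refine rel_gen (fun q : GQ ⧸ F.fixingSubgroup => T.poly (plc F P q)) ?_ hp.one_lt w
    (expo F.fixingSubgroup) expo_pos _
  intro q
  have hpm : (p : 𝓞 F) ∈ plc F P q := by
    show (p : 𝓞 F) ∈ (cj q.out P).under (𝓞 F)
    rw [mem_under, map_natCast]
    exact cj_nat.2 hpP
  exact (hT.good p hp hpS _ (under_max (cj_max hP)) hpm).monic

variable {T : IntegralSystem F n} {ℓ : ℕ} [hℓ : Fact ℓ.Prime]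
  {k : Type} [Field k] (ψ : ℤ_[ℓ] →+* k)

/-- the form and the Frobenius elements -/
theorem form_frob {J : Matrix (Fin n) (Fin n) ℤ_[ℓ]} (hJ : T.IsPolarization w ℓ J)
    {p : ℕ} (hp : p.Prime) (hpℓ : ℓ ≠ p) {P : Ideal ZBar} (hP : P.IsMaximal)
    (hpP : (p : ZBar) ∈ P) {y : F.fixingSubgroup} (hy : IsGeomFrob p P y)
    (x x' : Fin n → k) :
    Matrix.toBilin' (J.map ψ) (lin (rep ψ T) y x) (lin (rep ψ T) y x') =
      (p : k) ^ w * Matrix.toBilin' (J.map ψ) x x' := by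
  have h1 := hJ.equivariant y
  have hm : ∀ (c : ℤ_[ℓ]) (X : Matrix (Fin n) (Fin n) ℤ_[ℓ]),
      ψ.mapMatrix (c • X) = ψ c • ψ.mapMatrix X := by
    intro c X
    ext i j
    simp
  have h2 := congrArg ψ.mapMatrix h1
  rw [hm, map_mul, map_mul, map_pow] at h2
  have h3 : ((chik ψ (y : GQ) : k) ^ w) •
      ((rep ψ T y : Matrix (Fin n) (Fin n) k).transpose * J.map ψ *
        (rep ψ T y : Matrix (Fin n) (Fin n) k)) = J.map ψ := h2
  have h4 : (chik ψ (y : GQ) : k) * (p : k) = 1 := chik_frob ψ hp hpℓ hP hpP hy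
  have h5 : (p : k) ^ w * (chik ψ (y : GQ) : k) ^ w = 1 := by
    rw [← mul_pow, mul_comm, h4, one_pow]
  have h6 : (rep ψ T y : Matrix (Fin n) (Fin n) k).transpose * J.map ψ *
      (rep ψ T y : Matrix (Fin n) (Fin n) k) = ((p : k) ^ w) • J.map ψ := by
    conv_rhs => rw [← h3, smul_smul, h5, one_smul]
  rw [Matrix.toBilin'_apply', Matrix.toBilin'_apply']
  show dotProduct ((rep ψ T y : Matrix (Fin n) (Fin n) k).mulVec x)
    ((J.map ψ).mulVec ((rep ψ T y : Matrix (Fin n) (Fin n) k).mulVec x')) = _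
  have h7 : (p : k) ^ w * dotProduct x ((J.map ψ).mulVec x') =
      dotProduct x (((p : k) ^ w • J.map ψ).mulVec x') := by
    rw [Matrix.smul_mulVec, dotProduct_smul, smul_eq_mul]
  rw [h7, ← h6, ← Matrix.mulVec_mulVec, ← Matrix.mulVec_mulVec, Matrix.dotProduct_mulVec x,
    Matrix.vecMul_transpose]

/-- **There are no isotropic stable subspaces.** -/
theorem noiso_frob {J : Matrix (Fin n) (Fin n) ℤ_[ℓ]} (hJ : T.IsPolarization w ℓ J)
    (hJk : (J.map ψ).det ≠ 0)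
    (hwt : ∀ (U : Submodule k (Fin n → k)) (hU : IsStable (rep ψ T) U),
      Wt ψ w (finrank k U) (detChar (rep ψ T) U hU))
    (hT : T.GoodSystem S w)
    {p : ℕ} (hp : p.Prime) (hpS : p ∉ S) (hpℓ : ℓ ≠ p) {P : Ideal ZBar} (hP : P.IsMaximal)
    (hpP : (p : ZBar) ∈ P) {σ : GQ} (hσ : IsGeomFrob p P σ)
    (hσc : σ ∈ (F.fixingSubgroup).normalCore) {M : ℤ} (hMk : (M : k) ≠ 0)
    (hM : RelAt T w p P M) (hgen : GenAt T w p P) : NoIso (rep ψ T) (J.map ψ) := by
  classical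
  intro U hU hiso
  obtain ⟨a, ha, ha'⟩ := hwt U hU
  let y : (GQ ⧸ F.fixingSubgroup) → F.fixingSubgroup := fun q => ⟨q.out⁻¹ * σ * q.out,
    core_conj hσc q.out⟩
  have hy : ∀ q, IsGeomFrob p (cj q.out P) (y q) := fun q => cj_frob hσ
  have hzy : ∀ q, zz σ q = y q ^ expo F.fixingSubgroup := by
    intro q
    apply Subtype.ext
    show q.out⁻¹ * σ ^ expo F.fixingSubgroup * q.out = ((y q ^ expo F.fixingSubgroup :
      F.fixingSubgroup) : GQ)
    rw [SubmonoidClass.coe_pow]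
    show _ = (q.out⁻¹ * σ * q.out) ^ expo F.fixingSubgroup
    have h3 := conj_pow (i := expo F.fixingSubgroup) (a := (q.out)⁻¹) (b := σ)
    rw [inv_inv] at h3
    exact h3.symm
  have hpk : (p : k) ≠ 0 := right_ne_zero_of_mul_eq_one (chik_frob ψ hp hpℓ hP hpP hσ)
  have hB : (Matrix.toBilin' (J.map ψ)).Nondegenerate :=
    LinearMap.BilinForm.nondegenerate_toBilin'_of_det_ne_zero' _ hJk
  have hUy : ∀ q, U ≤ U.comap (lin (rep ψ T) (y q)) := fun q u hu => hU (y q) u hu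
  have hiso' : U ≤ (Matrix.toBilin' (J.map ψ)).orthogonal U := by
    intro x hx
    rw [LinearMap.BilinForm.mem_orthogonal_iff]
    intro u hu
    show Matrix.toBilin' (J.map ψ) u x = 0
    rw [Matrix.toBilin'_apply']
    exact hiso u hu x hx
  have hr := fun q => Pool.Agent.Y126.SH.roots_isotropic (Ω := AlgebraicClosure k) hB
    (pow_ne_zero w hpk) (fun x x' => form_frob ψ hJ hp hpℓ (cj_max hP) (cj_nat.2 hpP) (hy q) x x')
    (hUy q) hiso'
  have hpoly : ∀ q, (lin (rep ψ T) (y q)).charpoly.aroots (AlgebraicClosure k) =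
      ((T.poly (plc F P q)).map (Int.castRingHom (AlgebraicClosure k))).roots := by
    intro q
    rw [charpoly_frob ψ hT hp hpS hpℓ (cj_max hP) (cj_nat.2 hpP) (hy q), aroots_def,
      Polynomial.map_map]
    congr 2
  have hMΩ : (M : AlgebraicClosure k) ≠ 0 := by
    rw [← map_intCast (algebraMap k (AlgebraicClosure k))]
    exact (_root_.map_ne_zero _).2 hMk
  have hdle : finrank k U ≤ n := by
    have := Submodule.finrank_le U
    rwa [finrank_fin_fun] at this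
  have hale : a ≤ w * (finrank ℚ F * n) := by
    have h1 : w * (finrank ℚ F * finrank k U) ≤ w * (finrank ℚ F * n) :=
      Nat.mul_le_mul_left _ (Nat.mul_le_mul_left _ hdle)
    omega
  obtain ⟨A', h1, h2, h3⟩ := hM (AlgebraicClosure k) hMΩ
    (fun q => ((lin (rep ψ T) (y q)).restrict (hUy q)).charpoly.aroots (AlgebraicClosure k))
    (expo F.fixingSubgroup * a) (Nat.mul_le_mul_left _ hale) (fun q => by
      rw [← hpoly q]
      have h4 := (hr q).1
      rw [map_pow, map_natCast] at h4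
      have h5 : ((p ^ w : ℕ) : AlgebraicClosure k) = (p : AlgebraicClosure k) ^ w := by push_cast; rfl
      rw [h5]
      exact h4) (by
      have h6 := congrArg (algebraMap k (AlgebraicClosure k)) (ha' p hp hpℓ P hP hpP σ hσ)
      rw [map_prod, map_pow, map_natCast] at h6
      rw [← h6, ← Finset.prod_pow]
      refine Finset.prod_congr rfl fun q _ => ?_
      rw [(hr q).2.1, hzy q, map_pow, Units.val_pow_eq_pow_val, map_pow]
      rfl)
  have h4 := hgen (finrank k U) a A' (fun q => by rw [h1 q, (hr q).2.2]) h2 ha h3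
  exact Submodule.finrank_eq_zero.1 h4

end noiso

end Pool.Agent.N144.GF
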